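import Pool.Agent.H14.EWFinal

set_option autoImplicit false

namespace Pool.Agent.Results.MP_a02391_co.Maximisers

open H14EW

/-- All maximisers of the effective weight, for every genus, together with the value of `M(g)`,
its growth `M(g) ~ g^2 / 8`, and the form `⟨a, a+1, …, b⟩` of all maximisers of genus `≥ 10`. -/
theorem result :
    (∀ S : NumSgp, S.IsMaximiser ↔ S.Listed) ∧
    (∀ g : ℕ, IsGreatest {w | ∃ S : NumSgp, S.genus = g ∧ S.effWeight = w} ((g + 1) ^ 2 / 8)) ∧
    Filter.Tendsto (fun g : ℕ => (maxEffWeight g : ℝ) / (g : ℝ) ^ 2) Filter.atTop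
      (nhds (1 / 8)) ∧
    (∀ S : NumSgp, 10 ≤ S.genus → S.IsMaximiser →
      ∃ a b : ℕ, 2 ≤ a ∧ a < b ∧ b < 2 * a ∧ S.IsGenByInterval a b) :=
  ⟨classification, greatest, limit, intervals⟩

end Pool.Agent.Results.MP_a02391_co.Maximisers
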